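import Mathlib

set_option autoImplicit false

namespace Pool.Agent.Results.MP_2970b2_an.SecondCoeff

open Set Metric Complex Real Filter Topology
open scoped ComplexConjugate

/-- The class `CV(R₁,R₂)`. The functions `F`, `G`, `H` are the continuous extensions of `f`, `f'`
and the second derivative to the closed disc. -/
def CV (R₁ R₂ : ℝ) (f : ℂ → ℂ) : Prop :=
  DifferentiableOn ℂ f (ball 0 1) ∧ f 0 = 0 ∧ deriv f 0 = 1 ∧ InjOn f (ball 0 1) ∧
  Convex ℝ (f '' ball 0 1) ∧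
  ∃ F G H : ℂ → ℂ, ContinuousOn F (closedBall 0 1) ∧ ContinuousOn G (closedBall 0 1) ∧
    ContinuousOn H (closedBall 0 1) ∧
    (∀ z ∈ ball (0:ℂ) 1, F z = f z ∧ G z = deriv f z ∧ H z = deriv (deriv f) z) ∧
    (∀ z ∈ closedBall (0:ℂ) 1, G z ≠ 0) ∧
    ∀ z ∈ sphere (0:ℂ) 1, R₁ ≤ (1 + z * H z / G z).re / ‖G z‖ ∧ (1 + z * H z / G z).re / ‖G z‖ ≤ R₂

theorem avg_inv : circleAverage (fun z : ℂ => z⁻¹) 0 1 = 0 := by
  have h := circleAverage_zero_one_congr_inv (f := fun z : ℂ => z)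
  rw [h]
  have hd : DiffContOnCl ℂ (fun z : ℂ => z) (ball 0 |1|) := differentiable_id.diffContOnCl
  exact hd.circleAverage

theorem upper {R₁ R₂ : ℝ} (hR : 0 ≤ R₁) {f : ℂ → ℂ} (hf : CV R₁ R₂ f) :
    ‖deriv (deriv f) 0 / 2‖ ^ 2 ≤ 1 - R₁ ∧ 0 < R₂ := by
  obtain ⟨hd, h0, h1, -, -, F, G, H, -, hG, hH, heq, hne, hcurv⟩ := hf
  have hball : ball (0:ℂ) 1 ∈ 𝓝 (0:ℂ) := ball_mem_nhds _ one_pos
  have h0b : (0:ℂ) ∈ ball (0:ℂ) 1 := mem_ball_self one_pos
  have hd1 : DifferentiableOn ℂ (deriv f) (ball 0 1) := hd.deriv isOpen_ball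
  have hd2 : DifferentiableOn ℂ (deriv (deriv f)) (ball 0 1) := hd1.deriv isOpen_ball
  have hGd : DifferentiableOn ℂ G (ball 0 1) := hd1.congr fun z hz => (heq z hz).2.1
  have hHd : DifferentiableOn ℂ H (ball 0 1) := hd2.congr fun z hz => (heq z hz).2.2
  set q : ℂ → ℂ := fun z => H z / G z with hq
  have hqd : DifferentiableOn ℂ q (ball 0 1) :=
    hHd.div hGd fun z hz => hne z (ball_subset_closedBall hz)
  have hqc : ContinuousOn q (closedBall 0 1) := hH.div hG hne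
  set b : ℂ := deriv (deriv f) 0 / 2 with hb
  have hG0 : G 0 = 1 := by rw [(heq 0 h0b).2.1, h1]
  have hq0 : q 0 = 2 * b := by
    rw [hq]; simp only
    rw [hG0, (heq 0 h0b).2.2, hb]; ring
  set V : ℂ → ℂ := fun z => (1 + z * q z) * (1 - b * z) with hV
  have hVd : DifferentiableOn ℂ V (ball 0 1) := by
    apply DifferentiableOn.mul
    · exact (differentiableOn_const _).add (differentiableOn_id.mul hqd)
    · exact (differentiableOn_const _).sub ((differentiableOn_const _).mul differentiableOn_id)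
  have hVc : ContinuousOn V (closedBall 0 1) := by
    apply ContinuousOn.mul
    · exact continuousOn_const.add (continuousOn_id.mul hqc)
    · exact continuousOn_const.sub (continuousOn_const.mul continuousOn_id)
  have hV0 : V 0 = 1 := by rw [hV]; simp
  have hVder : deriv V 0 = b := by
    have hqat : DifferentiableAt ℂ q 0 := hqd.differentiableAt hball
    have e1 : HasDerivAt (fun z : ℂ => 1 + z * q z) (1 * q 0 + 0 * deriv q 0) 0 :=
      ((hasDerivAt_id (0:ℂ)).mul hqat.hasDerivAt).const_add 1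
    have e2 : HasDerivAt (fun z : ℂ => 1 - b * z) (-(b * 1)) 0 :=
      ((hasDerivAt_id (0:ℂ)).const_mul b).const_sub 1
    have e3 := e1.mul e2
    have e4 : deriv V 0 = _ := e3.deriv
    rw [e4, hq0]
    simp
    ring
  have hclos : closure (ball (0:ℂ) 1) = closedBall 0 1 := closure_ball _ one_ne_zero
  have hcb : closedBall (0:ℂ) 1 ∈ 𝓝 (0:ℂ) := closedBall_mem_nhds _ one_pos
  set W : ℂ → ℂ := dslope V 0 with hW
  have hWd : DifferentiableOn ℂ W (ball 0 1) := (differentiableOn_dslope hball).mpr hVd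
  have hWc : ContinuousOn W (closedBall 0 1) :=
    (continuousOn_dslope hcb).mpr ⟨hVc, hVd.differentiableAt hball⟩
  set K : ℂ → ℂ := fun z => V z - conj b * W z - R₁ * (G z * (1 - b * z) ^ 2) with hK
  have hpolyd : Differentiable ℂ (fun z : ℂ => (1 - b * z) ^ 2) := by fun_prop
  have hKd : DifferentiableOn ℂ K (ball 0 1) :=
    (hVd.sub (hWd.const_mul _)).sub ((hGd.mul hpolyd.differentiableOn).const_mul _)
  have hKc : ContinuousOn K (closedBall 0 1) :=
    (hVc.sub (continuousOn_const.mul hWc)).sub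
      (continuousOn_const.mul (hG.mul hpolyd.continuous.continuousOn))
  have hKcl : DiffContOnCl ℂ K (ball 0 |1|) := by
    rw [abs_one]; exact ⟨hKd, by rw [hclos]; exact hKc⟩
  have hKavg : circleAverage K 0 1 = K 0 := hKcl.circleAverage
  have hK0 : K 0 = 1 - conj b * b - R₁ := by
    rw [hK]; simp only
    rw [hV0, hW, dslope_same, hVder, hG0]; simp
  have hsph : sphere (0:ℂ) 1 ⊆ closedBall 0 1 := sphere_subset_closedBall
  have hinvc : ContinuousOn (fun z : ℂ => z⁻¹) (sphere 0 1) := by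
    apply continuousOn_inv₀.mono
    intro z hz hz0
    rw [mem_singleton_iff] at hz0
    rw [hz0] at hz
    simp at hz
  have hKi : CircleIntegrable K 0 1 := (hKc.mono hsph).circleIntegrable zero_le_one
  have hinvi : CircleIntegrable (fun z : ℂ => conj b * z⁻¹) 0 1 :=
    (continuousOn_const.mul hinvc).circleIntegrable zero_le_one
  set E : ℂ → ℂ := fun z => K z - conj b * z⁻¹ with hE
  have hEi : CircleIntegrable E 0 1 := hKi.sub hinvi
  have hEavg : circleAverage E 0 1 = 1 - conj b * b - R₁ := by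
    rw [hE, circleAverage_fun_sub hKi hinvi, hKavg, hK0]
    have : circleAverage (fun z : ℂ => conj b * z⁻¹) 0 1 = 0 := by
      have h := circleAverage_fun_smul (a := conj b) (f := fun z : ℂ => z⁻¹) (c := 0) (R := 1)
      rw [avg_inv, smul_zero] at h
      simpa [smul_eq_mul] using h
    rw [this, sub_zero]
  have hpos : ∀ z ∈ sphere (0:ℂ) |1|, 0 ≤ (E z).re := by
    intro z hz
    rw [abs_one] at hz
    have hzn : ‖z‖ = 1 := by simpa using hz
    have hz0 : z ≠ 0 := by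
      intro h; rw [h] at hzn; simp at hzn
    have hconj : z⁻¹ = conj z := by
      rw [Complex.inv_def, Complex.normSq_eq_norm_sq, hzn]; simp
    have hWz : W z = z⁻¹ * (V z - 1) := by
      rw [hW, dslope_of_ne _ hz0, slope_def_field, hV0, sub_zero, div_eq_inv_mul]
    have hEz : E z = (1 + z * q z) * ((1 - b * z) * conj (1 - b * z)) -
        R₁ * (G z * (1 - b * z) ^ 2) := by
      have e1 : E z = V z * (1 - conj b * z⁻¹) - R₁ * (G z * (1 - b * z) ^ 2) := by
        rw [hE]; simp only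
        rw [hK]; simp only
        rw [hWz]; ring
      rw [e1, hV, hconj]
      simp only [map_sub, map_one, map_mul]
      ring
    have hGz : 0 < ‖G z‖ := norm_pos_iff.mpr (hne z (hsph hz))
    have hc := (hcurv z hz).1
    rw [le_div_iff₀ hGz] at hc
    have hu : z * H z / G z = z * q z := by rw [hq]; simp only; ring
    rw [hu] at hc
    rw [hEz, Complex.mul_conj, Complex.sub_re, Complex.re_mul_ofReal, Complex.re_ofReal_mul]
    have h3 : (G z * (1 - b * z) ^ 2).re ≤ ‖G z‖ * Complex.normSq (1 - b * z) := by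
      refine (Complex.re_le_norm _).trans ?_
      rw [norm_mul, norm_pow, Complex.normSq_eq_norm_sq]
    have h4 : 0 ≤ Complex.normSq (1 - b * z) := Complex.normSq_nonneg _
    have h5 := mul_le_mul_of_nonneg_right hc h4
    have h6 := mul_le_mul_of_nonneg_left h3 hR
    nlinarith
  constructor
  · have h7 : circleAverage (fun z => (E z).re) 0 1 = (circleAverage E 0 1).re :=
      Complex.reCLM.circleAverage_comp_comm hEi
    have h8 : 0 ≤ circleAverage (fun z => (E z).re) 0 1 :=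
      circleAverage_nonneg_of_nonneg hpos
    rw [h7, hEavg, ← Complex.normSq_eq_conj_mul_self, Complex.normSq_eq_norm_sq] at h8
    have h9 : (1 - ((‖b‖ ^ 2 : ℝ) : ℂ) - (R₁ : ℂ)).re = 1 - ‖b‖ ^ 2 - R₁ := by
      simp only [Complex.sub_re, Complex.one_re, Complex.ofReal_re]
    rw [h9] at h8
    linarith
  · by_contra hR2
    push Not at hR2
    set U : ℂ → ℂ := fun z => 1 + z * q z with hU
    have hUd : DifferentiableOn ℂ U (ball 0 1) :=
      (differentiableOn_const _).add (differentiableOn_id.mul hqd)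
    have hUc : ContinuousOn U (closedBall 0 1) := continuousOn_const.add (continuousOn_id.mul hqc)
    have hUcl : DiffContOnCl ℂ U (ball 0 |1|) := by
      rw [abs_one]; exact ⟨hUd, by rw [hclos]; exact hUc⟩
    have hUavg : circleAverage U 0 1 = U 0 := hUcl.circleAverage
    have hUi : CircleIntegrable U 0 1 := (hUc.mono hsph).circleIntegrable zero_le_one
    have hU0 : U 0 = 1 := by rw [hU]; simp
    have h7 : circleAverage (fun z => (U z).re) 0 1 = (circleAverage U 0 1).re :=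
      Complex.reCLM.circleAverage_comp_comm hUi
    have h8 : circleAverage (fun z => (U z).re) 0 1 ≤ 0 := by
      apply circleAverage_mono_on_of_le_circle
      · exact ((Complex.continuous_re.comp_continuousOn (hUc.mono hsph))).circleIntegrable zero_le_one
      · intro z hz
        rw [abs_one] at hz
        have hGz : 0 < ‖G z‖ := norm_pos_iff.mpr (hne z (hsph hz))
        have hc := (hcurv z hz).2
        rw [div_le_iff₀ hGz] at hc
        have hu : z * H z / G z = z * q z := by rw [hq]; simp only; ring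
        rw [hu] at hc
        exact hc.trans (mul_nonpos_of_nonpos_of_nonneg hR2 hGz.le)
    rw [h7, hUavg, hU0] at h8
    norm_num at h8

/-- The extremal functions. -/
noncomputable def fa (a : ℝ) (z : ℂ) : ℂ := z / (1 - a * z)

theorem den_ne {a : ℝ} (ha0 : 0 ≤ a) (ha : a < 1) {z : ℂ} (hz : z ∈ closedBall (0:ℂ) 1) :
    1 - (a:ℂ) * z ≠ 0 := by
  intro h
  have h1 : (a:ℂ) * z = 1 := (sub_eq_zero.mp h).symm
  have h2 : ‖(a:ℂ) * z‖ = 1 := by rw [h1]; simp
  rw [norm_mul, Complex.norm_real, Real.norm_of_nonneg ha0] at h2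
  have h3 : ‖z‖ ≤ 1 := by simpa using hz
  nlinarith [norm_nonneg z]

theorem der1 {a : ℝ} {z : ℂ} (hz : 1 - (a:ℂ) * z ≠ 0) :
    HasDerivAt (fa a) (((1 - (a:ℂ) * z) ^ 2)⁻¹) z := by
  have h1 : HasDerivAt (fun w : ℂ => 1 - (a:ℂ) * w) (-((a:ℂ) * 1)) z :=
    ((hasDerivAt_id z).const_mul (a:ℂ)).const_sub 1
  have h2 := (hasDerivAt_id z).div h1 hz
  have e : ((1 - (a:ℂ) * z) ^ 2)⁻¹ = (1 * (1 - (a:ℂ) * z) - id z * -((a:ℂ) * 1)) / (1 - (a:ℂ) * z) ^ 2 := by
    simp only [id]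
    field_simp
    ring
  rw [e]
  exact h2

theorem der2 {a : ℝ} {z : ℂ} (hz : 1 - (a:ℂ) * z ≠ 0) :
    deriv (deriv (fa a)) z = 2 * a * ((1 - (a:ℂ) * z) ^ 3)⁻¹ := by
  have hev : deriv (fa a) =ᶠ[𝓝 z] fun w => ((1 - (a:ℂ) * w) ^ 2)⁻¹ := by
    have hopen : IsOpen {w : ℂ | 1 - (a:ℂ) * w ≠ 0} := by
      apply isOpen_ne_fun <;> fun_prop
    filter_upwards [hopen.mem_nhds hz] with w hw
    exact (der1 hw).deriv
  rw [hev.deriv_eq]
  have h1 : HasDerivAt (fun w : ℂ => 1 - (a:ℂ) * w) (-((a:ℂ) * 1)) z :=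
    ((hasDerivAt_id z).const_mul (a:ℂ)).const_sub 1
  have h2 := (h1.pow 2).inv (pow_ne_zero 2 hz)
  have h3 : deriv (fun w : ℂ => ((1 - (a:ℂ) * w) ^ 2)⁻¹) z = _ := h2.deriv
  rw [h3]
  simp only [Pi.pow_apply]
  field_simp
  push_cast
  ring

theorem key_ball {a : ℝ} (ha0 : 0 ≤ a) (ha : a < 1) (w : ℂ) :
    w ∈ ball (((a / (1 - a ^ 2) : ℝ) : ℂ)) (1 / (1 - a ^ 2)) ↔
      (1 - a ^ 2) * (w.re ^ 2 + w.im ^ 2) < 1 + 2 * a * w.re := by
  have hpos : 0 < 1 - a ^ 2 := by nlinarith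
  rw [mem_ball, Complex.dist_eq, ← sq_lt_sq₀ (norm_nonneg _) (by positivity),
    ← Complex.normSq_eq_norm_sq, Complex.normSq_apply]
  simp only [Complex.sub_re, Complex.sub_im, Complex.ofReal_re, Complex.ofReal_im, sub_zero]
  have e1 : (w.re - a / (1 - a ^ 2)) * (w.re - a / (1 - a ^ 2)) + w.im * w.im -
      (1 / (1 - a ^ 2)) ^ 2 =
      ((1 - a ^ 2) * (w.re ^ 2 + w.im ^ 2) - (1 + 2 * a * w.re)) / (1 - a ^ 2) := by
    field_simp
    ring
  constructor
  · intro h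
    have h' : ((1 - a ^ 2) * (w.re ^ 2 + w.im ^ 2) - (1 + 2 * a * w.re)) / (1 - a ^ 2) < 0 := by
      rw [← e1]; linarith
    rw [div_lt_iff₀ hpos] at h'
    linarith
  · intro h
    have h' : ((1 - a ^ 2) * (w.re ^ 2 + w.im ^ 2) - (1 + 2 * a * w.re)) / (1 - a ^ 2) < 0 :=
      div_neg_of_neg_of_pos (by linarith) hpos
    rw [← e1] at h'
    linarith

theorem key_norm (a : ℝ) (w : ℂ) : ‖w‖ < ‖1 + (a:ℂ) * w‖ ↔
    (1 - a ^ 2) * (w.re ^ 2 + w.im ^ 2) < 1 + 2 * a * w.re := by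
  rw [← sq_lt_sq₀ (norm_nonneg _) (norm_nonneg _), ← Complex.normSq_eq_norm_sq,
    ← Complex.normSq_eq_norm_sq, Complex.normSq_apply, Complex.normSq_apply]
  simp only [Complex.add_re, Complex.add_im, Complex.one_re, Complex.one_im,
    Complex.re_ofReal_mul, Complex.im_ofReal_mul, zero_add]
  have e : (1 + a * w.re) * (1 + a * w.re) + a * w.im * (a * w.im) - (w.re * w.re + w.im * w.im) =
      (1 + 2 * a * w.re) - (1 - a ^ 2) * (w.re ^ 2 + w.im ^ 2) := by ring
  constructor <;> intro h <;> linarith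

theorem img {a : ℝ} (ha0 : 0 ≤ a) (ha : a < 1) :
    fa a '' ball (0:ℂ) 1 = ball (((a / (1 - a ^ 2) : ℝ) : ℂ)) (1 / (1 - a ^ 2)) := by
  ext w
  rw [key_ball ha0 ha, ← key_norm]
  constructor
  · rintro ⟨z, hz, rfl⟩
    have hz' := den_ne ha0 ha (ball_subset_closedBall hz)
    have hzn : ‖z‖ < 1 := by simpa using hz
    have e : 1 + (a:ℂ) * fa a z = 1 / (1 - (a:ℂ) * z) := by
      unfold fa
      rw [eq_div_iff hz', add_mul, one_mul, mul_assoc, div_mul_cancel₀ _ hz']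
      ring
    rw [e]
    unfold fa
    rw [norm_div, norm_div, norm_one]
    exact div_lt_div_of_pos_right hzn (norm_pos_iff.mpr hz')
  · intro h
    have hne : 1 + (a:ℂ) * w ≠ 0 := by
      intro h0
      rw [h0, norm_zero] at h
      exact absurd h (not_lt.mpr (norm_nonneg _))
    refine ⟨w / (1 + (a:ℂ) * w), ?_, ?_⟩
    · rw [mem_ball, dist_zero_right, norm_div, div_lt_one (norm_pos_iff.mpr hne)]
      exact h
    · have e : 1 - (a:ℂ) * (w / (1 + (a:ℂ) * w)) = 1 / (1 + (a:ℂ) * w) := by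
        rw [eq_div_iff hne, sub_mul, one_mul, mul_assoc, div_mul_cancel₀ _ hne]
        ring
      unfold fa
      rw [e, div_div_div_cancel_right₀ hne, div_one]

theorem curv {a : ℝ} (ha0 : 0 ≤ a) (ha : a < 1) {z : ℂ} (hz : z ∈ sphere (0:ℂ) 1) :
    (1 + z * (2 * a * ((1 - (a:ℂ) * z) ^ 3)⁻¹) / ((1 - (a:ℂ) * z) ^ 2)⁻¹).re /
        ‖((1 - (a:ℂ) * z) ^ 2)⁻¹‖ = 1 - a ^ 2 := by
  have hz' := den_ne ha0 ha (sphere_subset_closedBall hz)
  have hzn : ‖z‖ = 1 := by simpa using hz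
  have e1 : 1 + z * (2 * a * ((1 - (a:ℂ) * z) ^ 3)⁻¹) / ((1 - (a:ℂ) * z) ^ 2)⁻¹ =
      (1 + a * z) / (1 - a * z) := by
    rw [eq_div_iff hz', div_inv_eq_mul]
    have e2 : ((1 - (a:ℂ) * z) ^ 3)⁻¹ * (1 - (a:ℂ) * z) ^ 2 * (1 - a * z) = 1 := by
      rw [mul_assoc, ← pow_succ, inv_mul_cancel₀ (pow_ne_zero 3 hz')]
    linear_combination (2 * a * z) * e2
  have hns : Complex.normSq (1 - (a:ℂ) * z) ≠ 0 := by
    rw [Ne, Complex.normSq_eq_zero]; exact hz'
  have hz2 : z.re * z.re + z.im * z.im = 1 := by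
    have : Complex.normSq z = 1 := by rw [Complex.normSq_eq_norm_sq, hzn]; norm_num
    rwa [Complex.normSq_apply] at this
  rw [e1, norm_inv, norm_pow, div_inv_eq_mul, ← Complex.normSq_eq_norm_sq, Complex.div_re,
    ← add_div, div_mul_cancel₀ _ hns]
  simp only [Complex.add_re, Complex.add_im, Complex.sub_re, Complex.sub_im, Complex.one_re,
    Complex.one_im, Complex.re_ofReal_mul, Complex.im_ofReal_mul, zero_add, zero_sub]
  linear_combination (-a ^ 2) * hz2

theorem mem_CV {a R₁ R₂ : ℝ} (ha0 : 0 ≤ a) (ha : a < 1) (h1 : R₁ ≤ 1 - a ^ 2) (h2 : 1 - a ^ 2 ≤ R₂) :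
    CV R₁ R₂ (fa a) := by
  have hden : ∀ z ∈ closedBall (0:ℂ) 1, 1 - (a:ℂ) * z ≠ 0 := fun z hz => den_ne ha0 ha hz
  have hb : ∀ z ∈ ball (0:ℂ) 1, 1 - (a:ℂ) * z ≠ 0 := fun z hz => hden z (ball_subset_closedBall hz)
  have hcd : ContinuousOn (fun z : ℂ => 1 - (a:ℂ) * z) (closedBall 0 1) := by fun_prop
  have hc2 : ContinuousOn (fun z : ℂ => (1 - (a:ℂ) * z) ^ 2) (closedBall 0 1) := by fun_prop
  have hc3 : ContinuousOn (fun z : ℂ => (1 - (a:ℂ) * z) ^ 3) (closedBall 0 1) := by fun_prop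
  have hA : ContinuousOn (fa a) (closedBall 0 1) := by
    unfold fa
    exact continuousOn_id.div hcd hden
  have hB : ContinuousOn (fun z : ℂ => ((1 - (a:ℂ) * z) ^ 2)⁻¹) (closedBall 0 1) :=
    ContinuousOn.inv₀ hc2 fun z hz => pow_ne_zero 2 (hden z hz)
  have hC : ContinuousOn (fun z : ℂ => ((1 - (a:ℂ) * z) ^ 3)⁻¹) (closedBall 0 1) :=
    ContinuousOn.inv₀ hc3 fun z hz => pow_ne_zero 3 (hden z hz)
  have hD : ContinuousOn (fun z : ℂ => 2 * (a:ℂ) * ((1 - (a:ℂ) * z) ^ 3)⁻¹) (closedBall 0 1) :=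
    continuousOn_const.mul hC
  have hz0 : 1 - (a:ℂ) * 0 ≠ 0 := by simp
  have hone : deriv (fa a) 0 = 1 := by
    rw [(der1 hz0).deriv]; simp
  have hinj : InjOn (fa a) (ball 0 1) := by
    intro z hz w hw h
    have hz' := hb z hz
    have hw' := hb w hw
    unfold fa at h
    rw [div_eq_div_iff hz' hw'] at h
    linear_combination h
  have hconv : Convex ℝ (fa a '' ball 0 1) := by
    rw [img ha0 ha]
    exact convex_ball _ _
  exact ⟨fun z hz => (der1 (hb z hz)).differentiableAt.differentiableWithinAt,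
    by unfold fa; simp, hone, hinj, hconv,
    fa a, fun z => ((1 - (a:ℂ) * z) ^ 2)⁻¹, fun z => 2 * (a:ℂ) * ((1 - (a:ℂ) * z) ^ 3)⁻¹,
    hA, hB, hD, fun z hz => ⟨rfl, (der1 (hb z hz)).deriv.symm, (der2 (hb z hz)).symm⟩,
    fun z hz => inv_ne_zero (pow_ne_zero 2 (hden z hz)),
    fun z hz => ⟨h1.trans (curv ha0 ha hz).ge, (curv ha0 ha hz).le.trans h2⟩⟩

theorem coeff_fa {a : ℝ} (ha0 : 0 ≤ a) : ‖deriv (deriv (fa a)) 0 / 2‖ = a := by
  rw [der2 (by simp)]
  simp [abs_of_nonneg ha0]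

/-- The sharp value of the second coefficient. -/
theorem result (R₁ R₂ : ℝ) (h0 : 0 ≤ R₁) (h12 : R₁ ≤ R₂) (hne : ∃ f, CV R₁ R₂ f) :
    IsLUB {x : ℝ | ∃ f, CV R₁ R₂ f ∧ x = ‖deriv (deriv f) 0 / 2‖} (√(1 - R₁)) := by
  obtain ⟨f₀, hf₀⟩ := hne
  obtain ⟨hb, hR2⟩ := upper h0 hf₀
  have hR1 : R₁ ≤ 1 := by nlinarith [sq_nonneg ‖deriv (deriv f₀) 0 / 2‖]
  constructor
  · rintro x ⟨f, hf, rfl⟩
    exact Real.le_sqrt_of_sq_le (upper h0 hf).1
  · intro u hu
    rcases eq_or_lt_of_le h0 with h | h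
    · rw [← h, sub_zero, Real.sqrt_one]
      by_contra hlt
      push Not at hlt
      set a := max (max ((u + 1) / 2) (1 - R₂ / 2)) 0 with ha
      have ha0 : 0 ≤ a := le_max_right _ _
      have ha1 : a < 1 := by
        rw [ha, max_lt_iff, max_lt_iff]
        refine ⟨⟨by linarith, by linarith⟩, one_pos⟩
      have ha2 : (u + 1) / 2 ≤ a := (le_max_left _ _).trans (le_max_left _ _)
      have ha3 : 1 - R₂ / 2 ≤ a := (le_max_right _ _).trans (le_max_left _ _)
      have hm : CV R₁ R₂ (fa a) := mem_CV ha0 ha1 (by rw [← h]; nlinarith) (by nlinarith)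
      have := hu ⟨fa a, hm, (coeff_fa ha0).symm⟩
      linarith
    · have ha1 : √(1 - R₁) < 1 := by
        rw [Real.sqrt_lt' one_pos]; linarith
      have hsq : (√(1 - R₁)) ^ 2 = 1 - R₁ := Real.sq_sqrt (by linarith)
      have hm : CV R₁ R₂ (fa (√(1 - R₁))) := mem_CV (Real.sqrt_nonneg _) ha1
        (by rw [hsq]; linarith) (by rw [hsq]; linarith)
      exact hu ⟨_, hm, (coeff_fa (Real.sqrt_nonneg _)).symm⟩

end Pool.Agent.Results.MP_2970b2_an.SecondCoeff
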